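import Mathlib

/-!
Fourier analysis of `1_A` for a measurable subset `A` of the torus which meets every unit cube of a
rotation action of `ℤ^d` exactly once.
-/

open MeasureTheory UnitAddTorus Polynomial

namespace Q214.PC

noncomputable section

local instance : MeasureSpace UnitAddCircle := ⟨AddCircle.haarAddCircle⟩

local instance : Measure.IsAddHaarMeasure (volume : Measure UnitAddCircle) :=
  inferInstanceAs (Measure.IsAddHaarMeasure AddCircle.haarAddCircle)

local instance : IsProbabilityMeasure (volume : Measure UnitAddCircle) :=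
  inferInstanceAs (IsProbabilityMeasure AddCircle.haarAddCircle)

variable {d : ℕ}

abbrev T (d : ℕ) := UnitAddTorus (Fin d)

theorem mF_add (n : Fin d → ℤ) (x y : T d) : mFourier n (x + y) = mFourier n x * mFourier n y := by
  simp only [mFourier, ContinuousMap.coe_mk, Pi.add_apply, ← Finset.prod_mul_distrib]
  refine Finset.prod_congr rfl fun i _ => ?_
  simp only [fourier_apply, smul_add, AddCircle.toCircle_add, Circle.coe_mul]

theorem mF_zero' (n : Fin d → ℤ) : mFourier n (0 : T d) = 1 := by
  have h := mF_add n 0 0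
  rw [add_zero] at h
  have h2 : mFourier n (0 : T d) ≠ 0 := by
    simp only [mFourier, ContinuousMap.coe_mk]
    refine Finset.prod_ne_zero_iff.2 fun i _ => ?_
    rw [fourier_apply]
    exact Circle.coe_ne_zero _
  exact (mul_eq_left₀ h2).1 h.symm

theorem mF_sum (n : Fin d → ℤ) (s : Finset (Fin d)) (f : Fin d → T d) :
    mFourier n (∑ i ∈ s, f i) = ∏ i ∈ s, mFourier n (f i) := by
  classical
  induction s using Finset.induction_on with
  | empty => rw [Finset.sum_empty, Finset.prod_empty, mF_zero']
  | insert a s ha ih => rw [Finset.sum_insert ha, Finset.prod_insert ha, mF_add, ih]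

theorem coeff_shift (f : T d → ℂ) (v : T d) (m : Fin d → ℤ) :
    mFourierCoeff (fun y => f (y + v)) m = mFourier m v * mFourierCoeff f m := by
  unfold mFourierCoeff
  have h1 : ∀ t : T d, mFourier (-m) t • f (t + v) = mFourier m v * (mFourier (-m) (t + v) • f (t + v)) := by
    intro t
    rw [mF_add, smul_eq_mul, smul_eq_mul]
    have h2 : mFourier m v * mFourier (-m) v = 1 := by
      rw [← mFourier_add, add_neg_cancel, mFourier_zero]
      rfl
    calc mFourier (-m) t * f (t + v) = mFourier (-m) t * (mFourier m v * mFourier (-m) v) * f (t + v) := by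
          rw [h2, mul_one]
      _ = _ := by ring
  simp only [h1]
  rw [integral_const_mul]
  congr 1
  exact integral_add_right_eq_self (fun t => mFourier (-m) t • f t) v

/-- uniqueness -/
theorem ae_const {F : T d → ℂ} (hF : Measurable F) (hb : ∃ C, ∀ x, ‖F x‖ ≤ C)
    (h : ∀ m, m ≠ 0 → mFourierCoeff F m = 0) : F =ᵐ[volume] fun _ => mFourierCoeff F 0 := by
  obtain ⟨C, hC⟩ := hb
  set c := mFourierCoeff F 0 with hc
  have hG : MemLp (fun x => F x - c) 2 (volume : Measure (T d)) := by
    refine MemLp.of_bound (C := C + ‖c‖) (hF.sub measurable_const).aestronglyMeasurable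
      (Filter.Eventually.of_forall fun x => (norm_sub_le _ _).trans ?_)
    linarith [hC x]
  have hF1 : Integrable F (volume : Measure (T d)) :=
    (MemLp.of_bound (p := 1) (C := C) hF.aestronglyMeasurable
      (Filter.Eventually.of_forall hC)).integrable le_rfl
  have hint : ∀ m : Fin d → ℤ, Integrable (fun t : T d => mFourier (-m) t • F t) volume := by
    intro m
    refine hF1.bdd_mul (c := 1) ((mFourier (-m)).continuous.aestronglyMeasurable)
      (Filter.Eventually.of_forall fun x => ?_)
    exact ((mFourier (-m)).norm_coe_le_norm x).trans (mFourier_norm (n := -m)).le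
  have hconst : ∀ m : Fin d → ℤ, mFourierCoeff (fun _ : T d => c) m = if m = 0 then c else 0 := by
    intro m
    unfold mFourierCoeff
    have h1 := (orthonormal_mFourier (d := Fin d))
    rw [orthonormal_iff_ite] at h1
    have h2 := h1 m 0
    simp only [ContinuousMap.inner_toLp, ← mFourier_neg, ← mFourier_add] at h2
    rw [zero_add] at h2
    show ∫ t : T d, mFourier (-m) t • c = _
    have h3 : ∫ t : T d, mFourier (-m) t • c = (∫ t : T d, mFourier (-m) t) * c := by
      simp only [smul_eq_mul]
      exact integral_mul_const _ _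
    rw [h3, h2]
    split_ifs <;> simp
  have hzero : hG.toLp = 0 := by
    apply (mFourierBasis (d := Fin d)).repr.injective
    ext m
    rw [mFourierBasis_repr, map_zero]
    show _ = (0 : ℂ)
    have h1 : mFourierCoeff (hG.toLp : T d → ℂ) m = mFourierCoeff (fun x => F x - c) m := by
      apply integral_congr_ae
      filter_upwards [hG.coeFn_toLp] with t ht
      rw [ht]
    rw [h1]
    have h2 : mFourierCoeff (fun x => F x - c) m = mFourierCoeff F m - mFourierCoeff (fun _ => c) m := by
      unfold mFourierCoeff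
      simp only [smul_sub]
      refine integral_sub (hint m) ?_
      exact ((mFourier (-m)).continuous.smul continuous_const).integrable_of_hasCompactSupport
        (HasCompactSupport.of_compactSpace _)
    rw [h2, hconst]
    by_cases hm : m = 0
    · rw [if_pos hm, hm, sub_self]
    · rw [if_neg hm, h m hm, sub_zero]
  have h3 := (MemLp.toLp_eq_toLp_iff hG (MemLp.zero (p := 2))).1 (by rw [hzero]; rfl)
  filter_upwards [h3] with x hx
  have : F x - c = 0 := hx
  linear_combination this

/-- translation vectors: `1/2` on the diagonal, powers of a transcendental number elsewhere -/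
def bet (t : ℝ) (d : ℕ) (i j : Fin d) : ℝ :=
  if i = j then 1 / 2 else t ^ ((i : ℕ) + d * (j : ℕ) + 1)

/-- the translation vector of `n ∈ ℤ^d` -/
def tv (t : ℝ) (d : ℕ) (n : Fin d → ℤ) : T d := fun i => ((∑ j, (n j : ℝ) * bet t d i j : ℝ) : UnitAddCircle)

theorem tv_add (t : ℝ) (d : ℕ) (m n : Fin d → ℤ) : tv t d (m + n) = tv t d m + tv t d n := by
  funext i
  show ((∑ j, ((m + n) j : ℝ) * bet t d i j : ℝ) : UnitAddCircle) =
    ((∑ j, (m j : ℝ) * bet t d i j : ℝ) : UnitAddCircle) + ((∑ j, (n j : ℝ) * bet t d i j : ℝ) : UnitAddCircle)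
  rw [← AddCircle.coe_add]
  congr 1
  rw [← Finset.sum_add_distrib]
  refine Finset.sum_congr rfl fun j _ => ?_
  simp only [Pi.add_apply]
  push_cast
  ring

theorem tv_zero (t : ℝ) (d : ℕ) : tv t d 0 = 0 := by
  have h := tv_add t d 0 0
  rw [add_zero] at h
  exact left_eq_add.1 h

theorem tv_single (t : ℝ) (d : ℕ) (j : Fin d) :
    tv t d (Pi.single j 1) = fun i => ((bet t d i j : ℝ) : UnitAddCircle) := by
  classical
  funext i
  unfold tv
  congr 1
  rw [Finset.sum_eq_single j]
  · simp
  · intro k _ hk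
    rw [Pi.single_eq_of_ne hk]
    simp
  · intro h
    exact absurd (Finset.mem_univ j) h

/-- linear independence of the powers -/
theorem indep {t : ℝ} (ht : Transcendental ℤ t) (s : Finset (Fin d)) (f : Fin d → ℕ)
    (hf : Set.InjOn f s) (hf0 : ∀ i, f i ≠ 0) (c : Fin d → ℤ) (k : ℤ)
    (h : ∑ i ∈ s, (c i : ℝ) * t ^ f i = k) : ∀ i ∈ s, c i = 0 := by
  classical
  intro i hi
  set P : ℤ[X] := ∑ i ∈ s, C (c i) * X ^ f i - C k with hP
  have h1 : aeval t P = 0 := by
    rw [hP, map_sub, map_sum]
    simp only [map_mul, map_pow, aeval_X, eq_intCast, map_intCast]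
    rw [h, sub_self]
  have h2 : P = 0 := by
    by_contra hne
    exact ht ⟨P, hne, h1⟩
  have h3 := congrArg (fun q : ℤ[X] => q.coeff (f i)) h2
  simp only [hP, coeff_sub, coeff_zero, finsetSum_coeff] at h3
  rw [Finset.sum_eq_single i] at h3
  · rw [coeff_C_mul, coeff_X_pow, if_pos rfl, coeff_C, if_neg (hf0 i)] at h3
    simpa using h3
  · intro j hj hji
    rw [coeff_C_mul, coeff_X_pow, if_neg, mul_zero]
    intro he
    exact hji (hf hj hi he.symm)
  · intro h
    exact absurd hi h

/-- a character is `-1` at `e_j` only if it is an odd multiple of the `j`-th coordinate -/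
theorem char_eq {t : ℝ} (ht : Transcendental ℤ t) (m : Fin d → ℤ) (j : Fin d)
    (h : mFourier m (tv t d (Pi.single j 1)) = -1) : (∀ i, i ≠ j → m i = 0) ∧ Odd (m j) := by
  classical
  have h1 : mFourier m (tv t d (Pi.single j 1)) =
      fourier 1 ((∑ i, (m i : ℝ) * bet t d i j : ℝ) : UnitAddCircle) := by
    rw [tv_single]
    simp only [mFourier, ContinuousMap.coe_mk]
    have h2 : ∀ s : Finset (Fin d), ∏ i ∈ s, (fourier (m i) ((bet t d i j : ℝ) : UnitAddCircle) : ℂ) =
        fourier 1 ((∑ i ∈ s, (m i : ℝ) * bet t d i j : ℝ) : UnitAddCircle) := by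
      intro s
      induction s using Finset.induction_on with
      | empty => simp
      | insert a s ha ih =>
        rw [Finset.prod_insert ha, Finset.sum_insert ha, ih]
        simp only [fourier_apply, one_smul, AddCircle.coe_add, AddCircle.toCircle_add, Circle.coe_mul]
        congr 3
        rw [← AddCircle.coe_zsmul, zsmul_eq_mul]
    exact h2 _
  have h3 : (fourier 1 ((1 / 2 : ℝ) : UnitAddCircle) : ℂ) = -1 := by
    rw [fourier_coe_apply]
    have : (2 * (Real.pi : ℂ) * Complex.I * ((1 : ℤ) : ℂ) * ((1 / 2 : ℝ) : ℂ) / ((1 : ℝ) : ℂ)) =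
        Real.pi * Complex.I := by
      push_cast
      ring
    rw [this, Complex.exp_pi_mul_I]
  have h4 : ((∑ i, (m i : ℝ) * bet t d i j : ℝ) : UnitAddCircle) = ((1 / 2 : ℝ) : UnitAddCircle) := by
    have h5 := h1.symm.trans (h.trans h3.symm)
    simp only [fourier_apply, one_smul] at h5
    exact AddCircle.injective_toCircle (T := 1) one_ne_zero (Subtype.ext h5)
  rw [← sub_eq_zero, ← AddCircle.coe_sub, AddCircle.coe_eq_zero_iff] at h4
  obtain ⟨k, hk⟩ := h4
  rw [zsmul_eq_mul, mul_one] at hk
  have hsplit : ∑ i, (m i : ℝ) * bet t d i j = m j * (1 / 2) +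
      ∑ i ∈ Finset.univ.erase j, (m i : ℝ) * t ^ ((i : ℕ) + d * (j : ℕ) + 1) := by
    rw [← Finset.add_sum_erase _ _ (Finset.mem_univ j)]
    congr 1
    · unfold bet
      rw [if_pos rfl]
    · refine Finset.sum_congr rfl fun i hi => ?_
      unfold bet
      rw [if_neg (Finset.ne_of_mem_erase hi)]
  rw [hsplit] at hk
  have hrel : ∑ i ∈ Finset.univ.erase j, ((2 * m i : ℤ) : ℝ) * t ^ ((i : ℕ) + d * (j : ℕ) + 1) =
      ((2 * k + 1 - m j : ℤ) : ℝ) := by
    have : ∑ i ∈ Finset.univ.erase j, ((2 * m i : ℤ) : ℝ) * t ^ ((i : ℕ) + d * (j : ℕ) + 1) =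
        2 * ∑ i ∈ Finset.univ.erase j, (m i : ℝ) * t ^ ((i : ℕ) + d * (j : ℕ) + 1) := by
      rw [Finset.mul_sum]
      refine Finset.sum_congr rfl fun i _ => ?_
      push_cast
      ring
    rw [this]
    push_cast
    linarith
  have hzero := indep ht (Finset.univ.erase j) (fun i => (i : ℕ) + d * (j : ℕ) + 1)
    (fun a _ b _ hab => Fin.ext (by simp only at hab; omega)) (fun i => by omega)
    (fun i => 2 * m i) (2 * k + 1 - m j) hrel
  have hm : ∀ i, i ≠ j → m i = 0 := fun i hi => by
    have := hzero i (Finset.mem_erase.2 ⟨hi, Finset.mem_univ _⟩)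
    omega
  refine ⟨hm, ?_⟩
  have hs0 : ∑ i ∈ Finset.univ.erase j, ((2 * m i : ℤ) : ℝ) * t ^ ((i : ℕ) + d * (j : ℕ) + 1) = 0 := by
    apply Finset.sum_eq_zero
    intro i hi
    rw [hm i (Finset.ne_of_mem_erase hi)]
    simp
  rw [hs0] at hrel
  have : 2 * k + 1 - m j = 0 := by exact_mod_cast hrel.symm
  exact ⟨k, by linarith⟩

/-- the half shift -/
def hs (d : ℕ) : T d := fun _ => ((1 / 2 : ℝ) : UnitAddCircle)

theorem char_hs (m : Fin d → ℤ) (j : Fin d) (h0 : ∀ i, i ≠ j → m i = 0) (hodd : Odd (m j)) :
    mFourier m (hs d) = -1 := by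
  classical
  have hne : m = Pi.single j (m j) := by
    funext i
    by_cases hi : i = j
    · rw [hi, Pi.single_eq_same]
    · rw [h0 i hi, Pi.single_eq_of_ne hi]
  simp only [mFourier, ContinuousMap.coe_mk]
  rw [Finset.prod_eq_single j]
  · unfold hs
    rw [fourier_coe_apply]
    obtain ⟨k, hk⟩ := hodd
    rw [hk]
    have : (2 * (Real.pi : ℂ) * Complex.I * ((2 * k + 1 : ℤ) : ℂ) * ((1 / 2 : ℝ) : ℂ) / ((1 : ℝ) : ℂ)) =
        k * (2 * Real.pi * Complex.I) + Real.pi * Complex.I := by
      push_cast
      ring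
    rw [this, Complex.exp_add, Complex.exp_int_mul_two_pi_mul_I, Complex.exp_pi_mul_I, one_mul]
  · intro i _ hi
    rw [h0 i hi, fourier_zero]
  · intro h
    exact absurd (Finset.mem_univ j) h

theorem coeff_one (m : Fin d → ℤ) : mFourierCoeff (fun _ : T d => (1 : ℂ)) m = if m = 0 then 1 else 0 := by
  unfold mFourierCoeff
  have h1 := (orthonormal_mFourier (d := Fin d))
  rw [orthonormal_iff_ite] at h1
  have h2 := h1 m 0
  simp only [ContinuousMap.inner_toLp, ← mFourier_neg, ← mFourier_add] at h2
  rw [zero_add] at h2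
  simp only [smul_eq_mul, mul_one]
  exact h2

/-- **The main point**: no measurable set meets every unit cube exactly once. -/
theorem no_set (hd : 2 ≤ d) {t : ℝ} (ht : Transcendental ℤ t) (A : Set (T d)) (hA : MeasurableSet A)
    (hcube : ∀ y, ∑ s : Finset (Fin d),
      A.indicator (fun _ => (1 : ℂ)) (y + ∑ j ∈ s, tv t d (Pi.single j 1)) = 1) : False := by
  classical
  set χ : T d → ℂ := A.indicator (fun _ => (1 : ℂ)) with hχ
  have hχm : Measurable χ := measurable_const.indicator hA
  have hχv : ∀ y, χ y = 0 ∨ χ y = 1 := fun y => by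
    rw [hχ]
    by_cases h : y ∈ A
    · exact Or.inr (Set.indicator_of_mem h _)
    · exact Or.inl (Set.indicator_of_notMem h _)
  have hχb : ∀ y, ‖χ y‖ ≤ 1 := fun y => by
    rcases hχv y with h | h <;> rw [h] <;> simp
  have hint : ∀ (v : T d) (m : Fin d → ℤ), Integrable (fun y => mFourier (-m) y • χ (y + v)) volume := by
    intro v m
    have h1 : Integrable (fun y => χ (y + v)) (volume : Measure (T d)) :=
      (MemLp.of_bound (p := 1) (C := 1) (hχm.comp (measurable_add_const v)).aestronglyMeasurable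
        (Filter.Eventually.of_forall fun y => hχb _)).integrable le_rfl
    refine h1.bdd_mul (c := 1) ((mFourier (-m)).continuous.aestronglyMeasurable)
      (Filter.Eventually.of_forall fun x => ?_)
    exact ((mFourier (-m)).norm_coe_le_norm x).trans (mFourier_norm (n := -m)).le
  -- the coefficients of the cube sum
  have hsum : ∀ m : Fin d → ℤ, (∏ j, (1 + mFourier m (tv t d (Pi.single j 1)))) * mFourierCoeff χ m =
      if m = 0 then 1 else 0 := by
    intro m
    rw [← coeff_one m]
    have h1 : mFourierCoeff (fun _ : T d => (1 : ℂ)) m =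
        mFourierCoeff (fun y => ∑ s : Finset (Fin d), χ (y + ∑ j ∈ s, tv t d (Pi.single j 1))) m := by
      congr 1
      funext y
      exact (hcube y).symm
    rw [h1]
    have h2 : mFourierCoeff (fun y => ∑ s : Finset (Fin d), χ (y + ∑ j ∈ s, tv t d (Pi.single j 1))) m =
        ∑ s : Finset (Fin d), mFourierCoeff (fun y => χ (y + ∑ j ∈ s, tv t d (Pi.single j 1))) m := by
      unfold mFourierCoeff
      simp only [Finset.smul_sum]
      exact integral_finsetSum _ fun s _ => hint _ m
    rw [h2, Finset.prod_one_add, Finset.powerset_univ, Finset.sum_mul]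
    refine Finset.sum_congr rfl fun s _ => ?_
    rw [coeff_shift, mF_sum]
  have hcoef : ∀ m : Fin d → ℤ, m ≠ 0 → mFourierCoeff χ m ≠ 0 → mFourier m (hs d) = -1 := by
    intro m hm hne
    have h1 := hsum m
    rw [if_neg hm] at h1
    have h2 := (mul_eq_zero.1 h1).resolve_right hne
    obtain ⟨j, -, hj⟩ := Finset.prod_eq_zero_iff.1 h2
    obtain ⟨h3, h4⟩ := char_eq ht m j (by linear_combination hj)
    exact char_hs m j h3 h4
  set F : T d → ℂ := fun y => χ y + χ (y + hs d) with hF
  have hFcoef : ∀ m, mFourierCoeff F m = (1 + mFourier m (hs d)) * mFourierCoeff χ m := by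
    intro m
    have h1 : mFourierCoeff F m = mFourierCoeff χ m + mFourierCoeff (fun y => χ (y + hs d)) m := by
      unfold mFourierCoeff
      simp only [hF, smul_add]
      refine integral_add ?_ (hint _ m)
      have := hint 0 m
      simpa only [add_zero] using this
    rw [h1, coeff_shift]
    ring
  have hFc : ∀ m, m ≠ 0 → mFourierCoeff F m = 0 := by
    intro m hm
    rw [hFcoef]
    by_cases h : mFourierCoeff χ m = 0
    · rw [h, mul_zero]
    · rw [hcoef m hm h]
      ring
  have h0 : mFourierCoeff F 0 * 2 ^ d = 2 := by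
    have h1 := hsum 0
    rw [if_pos rfl, mFourier_zero] at h1
    simp only [ContinuousMap.one_apply] at h1
    rw [Finset.prod_const, Finset.card_univ, Fintype.card_fin] at h1
    rw [hFcoef, mFourier_zero]
    simp only [ContinuousMap.one_apply]
    have h2 : (1 + 1 : ℂ) = 2 := by norm_num
    rw [h2] at h1 ⊢
    linear_combination 2 * h1
  have hFm : Measurable F := hχm.add (hχm.comp (measurable_add_const _))
  have hae := ae_const hFm ⟨2, fun y => (norm_add_le _ _).trans (by linarith [hχb y, hχb (y + hs d)])⟩ hFc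
  have : (ae (volume : Measure (T d))).NeBot := inferInstance
  obtain ⟨y, hy⟩ := hae.exists
  have h1 : F y * 2 ^ d = 2 := by rw [hy]; exact h0
  have h2 : F y = 0 ∨ F y = 1 ∨ F y = 2 := by
    show χ y + χ (y + hs d) = 0 ∨ χ y + χ (y + hs d) = 1 ∨ χ y + χ (y + hs d) = 2
    rcases hχv y with a | a <;> rcases hχv (y + hs d) with b | b <;> rw [a, b] <;> norm_num
  have h3 : (2 : ℝ) < 2 ^ d := by
    calc (2 : ℝ) < 2 ^ 2 := by norm_num
      _ ≤ 2 ^ d := pow_le_pow_right₀ (by norm_num) hd
  rcases h2 with h2 | h2 | h2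
  · rw [h2] at h1
    norm_num at h1
  · rw [h2, one_mul] at h1
    have : (2 : ℝ) ^ d = 2 := by exact_mod_cast h1
    linarith
  · rw [h2] at h1
    have : (2 : ℝ) * 2 ^ d = 2 := by exact_mod_cast h1
    linarith

end

end Q214.PC
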